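import Pool.Agent.L0h32.UZ.Stm
import Pool.Agent.L0h75.UX.MOV

/-!
# UZ RST: one can always go home and restart
-/

set_option autoImplicit false

namespace Pool.Agent.L0h39.UZ

open Relation
open Pool.Agent.L0h32.UX Pool.Agent.L0h32.UZ
open Pool.Agent.H630R2.LA (LimAut Sym Cfg Step init initTape WS lrel bitS ix nr Ann keep)

variable {A : Type} {h : ℕ} {rel : A → Fin (2 ^ h) → Fin (2 ^ h) → Bool} {p0 : Fin (2 ^ h)}
  {facc : Fin (2 ^ h) → Bool} {K : ℕ} {W : ℕ → ℕ → Fin (2 ^ h) → Fin (2 ^ h) → ℕ}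
  {w : List A} {t : ℕ} {τ : ℕ → Sym (WS A)}

theorem stepV {n : ℕ} {s s' : St h} {x x' : ℕ} (d : Bool) (hx : x ≤ n)
    (ht : TrV h rel p0 facc K W s (τ x) s' (keep (τ x)) d) (h1 : d = true → x' = x + 1)
    (h2 : d = false → x' + 1 = x) :
    RSV h rel p0 facc K W τ n (s, x) (s', x') := ⟨hx, d, ht, h1, h2⟩

/-- The restart at home. -/
theorem home (m : Mem) : ReflTransGen (RSV h rel p0 facc K W τ (t + 1)) (St.hm m, t)
    (St.hm (mem0 h p0 facc m.x m.fin 0), t) :=
  (ReflTransGen.single (stepV (s' := St.h1 (mem0 h p0 facc m.x m.fin 0)) (x' := t + 1) true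
    (Nat.le_succ t) (TrV.rsH m (τ t)) (fun _ => rfl) (fun hd => absurd hd (by decide)))).tail
    (stepV false le_rfl (TrV.old _ _ _ _ _ (Tr.back _ _)) (fun hd => absurd hd (by decide))
      (fun _ => rfl))

/-- The way home. -/
theorem wayHome (m : Mem) : ∀ (k i x : ℕ), i + k = EE h m.x m.fin → x + k = t + 1 →
    ReflTransGen (RSV h rel p0 facc K W τ (t + 1)) (St.rR m i, x) (St.hm m, t)
  | 0, i, x, hi, hx => ReflTransGen.single (stepV false (by omega)
      (TrV.old _ _ _ _ _ (Tr.rE m i _ (by omega))) (fun hd => absurd hd (by decide))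
      (fun _ => by omega))
  | k + 1, i, x, hi, hx => ReflTransGen.head (stepV (x' := x + 1) true (by omega)
      (TrV.old _ _ _ _ _ (Tr.rS m i _ (by omega))) (fun _ => rfl)
      (fun hd => absurd hd (by decide))) (wayHome m k (i + 1) (x + 1) (by omega) (by omega))

/-- The restart in a test. -/
theorem away (s : St h) (m : Mem) (i x : ℕ) (hs : loc h s = some (m, i))
    (hi : i ≤ EE h m.x m.fin) (hm : MOK h rel p0 facc K W w t m) (hx : x = bt h t m + i) :
    ReflTransGen (RSV h rel p0 facc K W τ (t + 1)) (s, x)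
      (St.hm (mem0 h p0 facc m.x m.fin 0), t) := by
  have hE := Pool.Agent.L0h75.UX.bt_add hm
  rcases Nat.lt_or_ge i (EE h m.x m.fin) with hlt | hge
  · exact ReflTransGen.head (stepV (x' := x + 1) true (by omega) (TrV.rs s m i _ hs hlt)
      (fun _ => rfl) (fun hd => absurd hd (by decide)))
      (wayHome (mem0 h p0 facc m.x m.fin 0) (EE h m.x m.fin - (i + 1)) (i + 1) (x + 1)
        (by show i + 1 + (EE h m.x m.fin - (i + 1)) = EE h m.x m.fin; omega) (by omega))
  · exact ReflTransGen.single (stepV false (by omega) (TrV.rs' s m i _ hs (by omega))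
      (fun hd => absurd hd (by decide)) (fun _ => by omega))

theorem t_RST : S_RST := by
  intro A h rel p0 facc K W w t τ ht s x hS hex hf1 hfin
  cases s with
  | wr x' => exact hS.elim
  | hm m =>
    obtain ⟨hm, rfl⟩ := hS
    exact ⟨m, hm, home m⟩
  | h1 m =>
    obtain ⟨hm, rfl⟩ := hS
    exact ⟨m, hm, ReflTransGen.head (stepV false le_rfl (TrV.old _ _ _ _ _ (Tr.back m _))
      (fun hd => absurd hd (by decide)) (fun _ => rfl)) (home m)⟩
  | rA m i =>
    obtain ⟨hm, hl, hy, hz, hi, hx⟩ := hS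
    exact ⟨m, hm, away _ m i x rfl hi hm hx⟩
  | rB m p i =>
    obtain ⟨hm, hl, hy, hz, hi, hx, -⟩ := hS
    exact ⟨m, hm, away _ m i x rfl hi hm hx⟩
  | rC m p v i =>
    obtain ⟨hm, hl, hy, hz, h1, hi, hx, -⟩ := hS
    have hLL := Pool.Agent.L0h75.UX.LL_le (h := h) (m := m)
    exact ⟨m, hm, away _ m i x rfl (by omega) hm hx⟩
  | rR m i =>
    obtain ⟨hm, hi, hx⟩ := hS
    have hE := Pool.Agent.L0h75.UX.bt_add hm
    exact ⟨m, hm, (wayHome m (EE h m.x m.fin - i) i x (by omega) (by omega)).trans (home m)⟩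
  | ex x' => exact absurd rfl (hex x')
  | f1 b => exact absurd rfl (hf1 b)
  | fin b => exact absurd rfl (hfin b)

end Pool.Agent.L0h39.UZ
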